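import Pool.Agent.Helper25_CN3.Stmts

/-!
Squad CN3 (MP_6d18f4_al, Q2), module C_CUS: every null vector is equivalent to one in the list.
-/

noncomputable section

namespace Pool.Agent.H47.CN3

open Pool.Agent.H25Cong Pool.Agent.CON Pool.Agent.CN2 Pool.Agent.CN3

variable {n : ℕ}

lemma cc_dot : ∀ (m : ℕ) (u v : List ℤ), u.length ≤ m →
    dot u v = ∑ k ∈ Finset.range m, u.getD k 0 * v.getD k 0 := by
  intro m u
  induction u generalizing m with
  | nil =>
    intro v _
    simp [dot]
  | cons a u ih =>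
    intro v h
    obtain ⟨m, rfl⟩ : ∃ m', m = m' + 1 := ⟨m - 1, by simp at h; omega⟩
    cases v with
    | nil =>
      simp [dot]
    | cons c v =>
      have h1 := ih m v (by simpa using h)
      unfold dot at h1 ⊢
      rw [List.zipWith_cons_cons, List.sum_cons, h1, Finset.sum_range_succ']
      simp
      ring

/-- elements of RefL are isometries -/
lemma refL_isom {L : Submodule ℤ (V n)} {g : V n ≃ₗ[ℝ] V n} (hg : g ∈ RefL L) : Isom g := by
  unfold RefL at hg
  induction hg using Subgroup.closure_induction'' with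
  | mem x hx =>
    obtain ⟨r, hr, hgr⟩ := hx.1
    have hxS : x = S r := by
      ext1 y
      rw [hgr y, S_apply]
    rw [hxS]
    exact S_isom r
  | inv_mem x hx =>
    obtain ⟨r, hr, hgr⟩ := hx.1
    have hxS : x = S r := by
      ext1 y
      rw [hgr y, S_apply]
    rw [hxS, S_inv]
    exact S_isom r
  | one => exact Isom_one
  | mul x y _ _ hx hy => exact hx.mul hy

/-- the linear combination of rows, as a vector -/
lemma lv_comb (a : Module.Basis (Fin (n + 1)) ℝ (V n)) (ν : List ℤ) (A : List (List ℤ))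
    (h : ν.length ≤ A.length) :
    lv a (comb (n + 1) ν A) =
      ∑ i ∈ Finset.range A.length, ((ν.getD i 0 : ℤ) : ℝ) • lv a (A.getD i []) := by
  unfold lv
  simp only [Finset.smul_sum, smul_smul]
  rw [Finset.sum_comm]
  refine Finset.sum_congr rfl fun j _ => ?_
  rw [← Finset.sum_smul]
  congr 1
  have h1 : (comb (n + 1) ν A).getD (j : ℕ) 0 = dot ν (A.map fun r => r.getD (j : ℕ) 0) := by
    unfold comb
    rw [List.getD_eq_getElem _ _ (by simp; exact Nat.lt_succ_iff.1 j.2), List.getElem_map, List.getElem_range]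
  rw [h1, cc_dot A.length _ _ h]
  push_cast
  refine Finset.sum_congr rfl fun i hi => ?_
  have hi' : i < A.length := Finset.mem_range.1 hi
  congr 2
  rw [List.getD_eq_getElem _ _ (by simpa using hi'), List.getElem_map,
    List.getD_eq_getElem A _ hi']

lemma lv_map_neg (a : Module.Basis (Fin (n + 1)) ℝ (V n)) (μ : ℤ) (ε : List ℤ) :
    lv a (ε.map fun z => -(μ * z)) = (-(μ : ℝ)) • lv a ε := by
  unfold lv
  rw [Finset.smul_sum]
  refine Finset.sum_congr rfl fun i _ => ?_
  rw [smul_smul]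
  congr 1
  by_cases h : (i : ℕ) < ε.length
  · rw [List.getD_eq_getElem _ _ (by simpa using h), List.getElem_map, List.getD_eq_getElem _ _ h]
    push_cast
    ring
  · rw [List.getD_eq_default _ _ (by simpa using h), List.getD_eq_default _ _ (by simpa using h)]
    simp

/-- a list with dot b ε = 1 gives a nonzero vector -/
lemma lv_ne_zero (a : Module.Basis (Fin (n + 1)) ℝ (V n)) (b ε : List ℤ)
    (hε : ε.length = n + 1) (h : dot b ε = 1) : lv a ε ≠ 0 := by
  intro h0
  have h1 := Fintype.linearIndependent_iff.1 a.linearIndependent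
    (fun i => ((ε.getD (i : ℕ) 0 : ℤ) : ℝ)) h0
  have h2 : ∀ k : ℕ, ε.getD k 0 = 0 := by
    intro k
    by_cases hk : k < n + 1
    · have := h1 ⟨k, hk⟩
      exact_mod_cast this
    · exact List.getD_eq_default _ _ (by omega)
  rw [cc_dot b.length b ε le_rfl, Finset.sum_eq_zero fun k _ => by rw [h2 k, mul_zero]] at h
  exact zero_ne_one h

theorem c_cus (h1 : V_IP) (_h2 : V_MEM) (_h3 : V_ROT) (h4 : V_CRT) (h5 : T_TIM) (h6 : C_DSC)
    (h7 : C_HIT) : C_CUS := by
  intro n a G A c D p cu hG hc v hv _hv0 hvv hvp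
  simp only [cusB, Bool.and_eq_true, decide_eq_true_eq, List.all_eq_true] at hc
  obtain ⟨⟨⟨⟨⟨⟨⟨⟨⟨c1, c2⟩, c3⟩, c4⟩, c5⟩, c6⟩, c7⟩, c8⟩, c9⟩, c10⟩ := hc
  obtain ⟨w, hw, hch⟩ := h6 n a G A p hG c1 c2 c3 v hv hvv.le hvp
  have hww : B (w v) (w v) = 0 := by rw [refL_isom hw v v, hvv]
  -- the certificate
  have hcl : ∀ r ∈ c, r.length = A.length := fun r hr => (c7 r hr).1
  have hcrt := h4 n a G A c D hG c8 c6 hcl (w v)
  rw [hww, mul_zero] at hcrt
  have hcnn : ∀ i j : ℕ, 0 ≤ ent c i j := by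
    intro i j
    unfold ent
    by_cases hi : i < c.length
    · have hm : c.getD i [] ∈ c := by
        rw [List.getD_eq_getElem c _ hi]
        exact List.getElem_mem hi
      by_cases hj : j < (c.getD i []).length
      · rw [List.getD_eq_getElem _ _ hj]
        exact (c7 _ hm).2 _ (List.getElem_mem hj)
      · exact (List.getD_eq_default _ _ (by omega)).ge
    · rw [List.getD_eq_default c _ (by omega)]
      simp
  have hAi : ∀ i : Fin A.length, 0 ≤ B (w v) (lv a (A.getD i [])) := by
    intro i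
    rw [List.getD_eq_getElem _ _ i.2]
    exact hch _ (List.getElem_mem i.2)
  have hterm : ∀ i j : Fin A.length, 0 ≤ ((ent c i j : ℤ) : ℝ) *
      (B (w v) (lv a (A.getD i [])) * B (w v) (lv a (A.getD j []))) := fun i j =>
    mul_nonneg (by exact_mod_cast hcnn i j) (mul_nonneg (hAi i) (hAi j))
  have hsum : ∑ i : Fin A.length, ∑ j : Fin A.length, ((ent c i j : ℤ) : ℝ) *
      (B (w v) (lv a (A.getD i [])) * B (w v) (lv a (A.getD j []))) = 0 := by linarith
  have hz : ∀ i j : Fin A.length, ((ent c i j : ℤ) : ℝ) *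
      (B (w v) (lv a (A.getD i [])) * B (w v) (lv a (A.getD j []))) = 0 := by
    intro i j
    have e1 := (Finset.sum_eq_zero_iff_of_nonneg
      (fun i _ => Finset.sum_nonneg fun j _ => hterm i j)).1 hsum i (Finset.mem_univ i)
    exact (Finset.sum_eq_zero_iff_of_nonneg (fun j _ => hterm i j)).1 e1 j (Finset.mem_univ j)
  -- the search
  obtain ⟨f, hf, hfP⟩ := h7 c (cu.map fun u => supp u.ν) []
    (fun i => i < A.length ∧ 0 < B (w v) (lv a (A.getD i []))) c10 (by simp) (by
      intro x y hx hy hxy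
      have e := hz ⟨x, hx.1⟩ ⟨y, hy.1⟩
      have e1 : (0 : ℝ) < ((ent c x y : ℤ) : ℝ) := by exact_mod_cast hxy
      have e2 := mul_pos e1 (mul_pos hx.2 hy.2)
      simp only at e
      rw [e] at e2
      exact lt_irrefl _ e2)
  obtain ⟨u, hu, rfl⟩ := List.mem_map.1 hf
  refine ⟨w, hw, u, hu, c9 u hu, ?_⟩
  have hnull := c9 u hu
  simp only [nullB, Bool.and_eq_true, decide_eq_true_eq, List.all_eq_true] at hnull
  obtain ⟨⟨⟨⟨⟨⟨⟨n1, n2⟩, n3⟩, n4⟩, n5⟩, n6⟩, n7⟩, n8⟩ := hnull
  have hGl : n + 1 = G.length := by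
    have := hG.sym
    simp only [symB, Bool.and_eq_true, decide_eq_true_eq] at this
    exact this.1.1.1.symm
  -- w v is orthogonal to ε
  have hperp : B (w v) (lv a u.ε) = 0 := by
    have e0 : comb (n + 1) u.ν A = u.ε.map fun z => -(u.μ * z) := by
      rw [hGl]
      exact n8
    have e1 : lv a (comb (n + 1) u.ν A) = (-(u.μ : ℝ)) • lv a u.ε := by
      rw [e0, lv_map_neg]
    have e2 : B (w v) (lv a (comb (n + 1) u.ν A)) = B (w v) ((-(u.μ : ℝ)) • lv a u.ε) := by
      rw [e1]
    rw [lv_comb a _ _ n1.le, B_sum_right, B_smul_right] at e2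
    have e3 : ∑ i ∈ Finset.range A.length,
        B (w v) (((u.ν.getD i 0 : ℤ) : ℝ) • lv a (A.getD i [])) = 0 := by
      refine Finset.sum_eq_zero fun i hi => ?_
      have hi' : i < A.length := Finset.mem_range.1 hi
      rw [B_smul_right]
      by_cases hν : u.ν.getD i 0 = 0
      · rw [hν]; simp
      · have hs : i ∈ supp u.ν := by
          unfold supp
          rw [List.mem_filter]
          exact ⟨List.mem_range.2 (by omega), by simpa using hν⟩
        have h8 := hfP i hs
        have h9 : B (w v) (lv a (A.getD i [])) = 0 := by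
          refine le_antisymm ?_ (hAi ⟨i, hi'⟩)
          by_contra hcon
          exact h8 ⟨hi', lt_of_not_ge hcon⟩
        rw [h9, mul_zero]
    rw [e3] at e2
    have hμ : (-(u.μ : ℝ)) ≠ 0 := neg_ne_zero.2 (by exact_mod_cast n3)
    rcases mul_eq_zero.1 e2.symm with h | h
    · exact absurd h hμ
    · exact h
  have hεε : B (lv a u.ε) (lv a u.ε) = 0 := by
    rw [h1 n a G hG, n7]
    simp
  have hpp : B (lv a p) (lv a p) < 0 := by
    rw [h1 n a G hG]
    exact_mod_cast c3
  have hε0 : lv a u.ε ≠ 0 := lv_ne_zero a u.b u.ε (by rw [n4, hGl]) n6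
  exact (h5 n (lv a p) (lv a u.ε) (w v) hpp).2.2.2 hε0 hεε hww (by rw [B_comm]; exact hperp)

end Pool.Agent.H47.CN3

end
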