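import Pool.Agent.Helper25_CN3.Stmts

/-!
Squad CN3 (MP_6d18f4_al, Q2), module T_REF: reflections preserve the time orientation.
-/

noncomputable section

namespace Pool.Agent.H47.CN3

open Pool.Agent.H25Cong Pool.Agent.CON Pool.Agent.CN2 Pool.Agent.CN3

variable {n : ℕ}

/-- one reflection -/
lemma refl_time (hT : T_TIM) (g : V n ≃ₗ[ℝ] V n) (hg : IsReflection g) (p v : V n)
    (hp : B p p < 0) (hv : B v v ≤ 0) (hvp : B v p < 0) :
    B (g v) (g v) = B v v ∧ B (g v) p < 0 := by
  obtain ⟨r, hr, hgr⟩ := hg
  have hgS : ∀ x, g x = S r x := fun x => by rw [hgr x, S_apply]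
  have hr0 : B r r ≠ 0 := ne_of_gt hr
  have hiso : ∀ x y, B (g x) (g y) = B x y := fun x y => by rw [hgS, hgS, S_isom]
  refine ⟨hiso v v, ?_⟩
  -- the projection of p to the mirror
  set q : V n := p - (B p r / B r r) • r with hq
  have hqr : B q r = 0 := by
    rw [hq, B_sub_left, B_smul_left]
    field_simp
    ring
  have hqq : B q q < 0 := by
    have h1 : B q q = B p p - B p r ^ 2 / B r r := by
      rw [hq]
      simp only [B_sub_left, B_sub_right, B_smul_left, B_smul_right, B_comm r p]
      field_simp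
      ring
    have h2 : 0 ≤ B p r ^ 2 / B r r := div_nonneg (sq_nonneg _) hr.le
    linarith
  have hqp : B q p < 0 := by
    have h1 : B q p = B p p - B p r ^ 2 / B r r := by
      rw [hq, B_sub_left, B_smul_left, B_comm r p]
      ring
    have h2 : 0 ≤ B p r ^ 2 / B r r := div_nonneg (sq_nonneg _) hr.le
    linarith
  have hgq : g q = q := by
    rw [hgr q, hqr]
    simp
  have hpq : B p q < 0 := by rw [B_comm]; exact hqp
  -- v against q
  have h1 : B v q < 0 := by
    have hpv : B p v < 0 := by rw [B_comm]; exact hvp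
    -- reference vector q, first vector p, second vector v
    exact (hT n q p v hqq).2.2.1 hp.le hv hpq hpv
  have h2 : B (g v) q < 0 := by
    have : B (g v) (g q) = B v q := hiso v q
    rw [hgq] at this
    rw [this]
    exact h1
  have h3 : B (g v) (g v) ≤ 0 := by rw [hiso]; exact hv
  have h4 : B q (g v) < 0 := by rw [B_comm]; exact h2
  exact (hT n p q (g v) hp).2.2.1 hqq.le h3 hqp h4

theorem t_ref (hT : T_TIM) : T_REF := by
  intro n L g p v hg hp
  have key : ∀ v : V n, B v v ≤ 0 → B v p < 0 →
      B (g v) (g v) = B v v ∧ B (g v) p < 0 := by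
    unfold RefL at hg
    induction hg using Subgroup.closure_induction'' with
    | mem x hx => exact fun v hv hvp => refl_time hT x hx.1 p v hp hv hvp
    | inv_mem x hx =>
      intro v hv hvp
      have h1 : x⁻¹ = x := by
        obtain ⟨r, hr, hgr⟩ := hx.1
        have hxS : x = S r := by
          ext1 y
          rw [hgr y, S_apply]
        rw [hxS, S_inv]
      rw [h1]
      exact refl_time hT x hx.1 p v hp hv hvp
    | one => exact fun v hv hvp => ⟨rfl, hvp⟩
    | mul x y _ _ hx hy =>
      intro v hv hvp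
      obtain ⟨h1, h2⟩ := hy v hv hvp
      obtain ⟨h3, h4⟩ := hx (y v) (h1 ▸ hv) h2
      exact ⟨by rw [LinearEquiv.mul_apply, h3, h1], by rw [LinearEquiv.mul_apply]; exact h4⟩
  exact fun hv hvp => (key v hv hvp).2

end Pool.Agent.H47.CN3

end
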